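import Pool.Agent.helper92.ISO.SpecG

set_option autoImplicit false

open Filter Topology

namespace Pool.Agent.ISO

open Pool.Agent.PB

theorem BET_J (s : ℕ) : ∀ k : ℕ, (∫ x in (0:ℝ)..1, x ^ k * (1 - x) ^ s) *
    (((k + s + 1).choose (k + 1) : ℕ) : ℝ) * (k + 1) = 1 := by
  induction s with
  | zero =>
    intro k
    simp only [pow_zero, mul_one, add_zero, Nat.choose_self, Nat.cast_one]
    rw [integral_pow]
    have : (k : ℝ) + 1 ≠ 0 := by positivity
    field_simp
    simp
  | succ s ih =>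
    intro k
    have h1 : ∀ x : ℝ, HasDerivAt (fun x : ℝ => x ^ (k + 1) * (1 - x) ^ (s + 1))
        ((k + 1) * (x ^ k * (1 - x) ^ (s + 1)) - (s + 1) * (x ^ (k + 1) * (1 - x) ^ s)) x := by
      intro x
      have h2 : HasDerivAt (fun x : ℝ => x ^ (k + 1)) ((k + 1 : ℕ) * x ^ k) x := by
        simpa using hasDerivAt_pow (k + 1) x
      have h3 : HasDerivAt (fun x : ℝ => (1 - x) ^ (s + 1)) ((s + 1 : ℕ) * (1 - x) ^ s * (-1)) x := by
        have h4 : HasDerivAt (fun x : ℝ => 1 - x) (-1) x := by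
          simpa using (hasDerivAt_id x).const_sub 1
        simpa using h4.fun_pow (s + 1)
      have h5 := h2.mul h3
      refine h5.congr_deriv ?_
      push_cast
      ring
    have hint1 : IntervalIntegrable (fun x : ℝ => ((k : ℝ) + 1) * (x ^ k * (1 - x) ^ (s + 1)))
        MeasureTheory.volume 0 1 := Continuous.intervalIntegrable (by fun_prop) _ _
    have hint2 : IntervalIntegrable (fun x : ℝ => ((s : ℝ) + 1) * (x ^ (k + 1) * (1 - x) ^ s))
        MeasureTheory.volume 0 1 := Continuous.intervalIntegrable (by fun_prop) _ _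
    have h6 := intervalIntegral.integral_eq_sub_of_hasDerivAt (a := 0) (b := 1)
      (fun x _ => h1 x) (hint1.sub hint2)
    rw [intervalIntegral.integral_sub hint1 hint2, intervalIntegral.integral_const_mul,
      intervalIntegral.integral_const_mul] at h6
    simp only [sub_self, ne_eq, Nat.add_eq_zero_iff, one_ne_zero, and_false, not_false_eq_true, zero_pow,
      mul_zero, zero_mul, sub_zero] at h6
    have h7 := ih (k + 1)
    have h8 : (k + (s + 1) + 1).choose (k + 1) * (s + 1) = (k + 1 + s + 1).choose (k + 1 + 1) * (k + 2) := by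
      have h9 := Nat.choose_succ_right_eq (k + 1 + s + 1) (k + 1)
      have h10 : k + 1 + s + 1 - (k + 1) = s + 1 := by omega
      rw [h10] at h9
      have h11 : k + (s + 1) + 1 = k + 1 + s + 1 := by ring
      rw [h11, ← h9]
    have h8' : (((k + (s + 1) + 1).choose (k + 1) : ℕ) : ℝ) * (s + 1) =
        (((k + 1 + s + 1).choose (k + 1 + 1) : ℕ) : ℝ) * (k + 2) := by
      exact_mod_cast h8
    set J1 := ∫ x in (0:ℝ)..1, x ^ k * (1 - x) ^ (s + 1)
    set J2 := ∫ x in (0:ℝ)..1, x ^ (k + 1) * (1 - x) ^ s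
    have h12 : ((k : ℝ) + 1) * J1 = (s + 1) * J2 := by linarith
    push_cast at h7
    calc J1 * (((k + (s + 1) + 1).choose (k + 1) : ℕ) : ℝ) * (k + 1)
        = (((k : ℝ) + 1) * J1) * (((k + (s + 1) + 1).choose (k + 1) : ℕ) : ℝ) := by ring
      _ = J2 * ((((k + (s + 1) + 1).choose (k + 1) : ℕ) : ℝ) * (s + 1)) := by rw [h12]; ring
      _ = J2 * (((k + 1 + s + 1).choose (k + 1 + 1) : ℕ) : ℝ) * (k + 1 + 1) := by rw [h8']; ring
      _ = 1 := h7

/-- The polynomial `bin κ t x / x`. -/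
noncomputable def BET_P (M t : ℕ) (x : ℝ) : ℝ :=
  ∑ i ∈ Finset.range M, (t.choose (i + 1) : ℝ) * (x ^ i * (1 - x) ^ (t - (i + 1)))

theorem BET_cont (M t : ℕ) : Continuous (BET_P M t) := by
  unfold BET_P
  fun_prop

theorem BET_eq (κ t : ℕ) (x : ℝ) (hx : x ≠ 0) : bin κ t x / x = BET_P (min κ t) t x := by
  unfold bin BET_P
  have h1 : ∑ r ∈ Finset.Icc 1 κ, (t.choose r : ℝ) * x ^ r * (1 - x) ^ (t - r) =
      ∑ i ∈ Finset.range κ, (t.choose (i + 1) : ℝ) * x ^ (i + 1) * (1 - x) ^ (t - (i + 1)) := by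
    refine Finset.sum_nbij' (fun r => r - 1) (fun i => i + 1) ?_ ?_ ?_ ?_ ?_
    · intro r hr
      rw [Finset.mem_Icc] at hr
      rw [Finset.mem_range]
      omega
    · intro i hi
      rw [Finset.mem_range] at hi
      rw [Finset.mem_Icc]
      omega
    · intro r hr
      rw [Finset.mem_Icc] at hr
      omega
    · intro i _
      omega
    · intro r hr
      rw [Finset.mem_Icc] at hr
      have : r - 1 + 1 = r := by omega
      simp only [this]
  have h2 : ∑ i ∈ Finset.range (min κ t), (t.choose (i + 1) : ℝ) * (x ^ i * (1 - x) ^ (t - (i + 1))) =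
      ∑ i ∈ Finset.range κ, (t.choose (i + 1) : ℝ) * (x ^ i * (1 - x) ^ (t - (i + 1))) := by
    refine Finset.sum_subset (Finset.range_subset_range.2 (min_le_left _ _)) ?_
    intro i hi hi'
    rw [Finset.mem_range] at hi hi'
    have : t < i + 1 := by
      have := lt_min_iff.not.1 hi'
      omega
    rw [Nat.choose_eq_zero_of_lt this]
    simp
  rw [h1, h2, Finset.sum_div]
  refine Finset.sum_congr rfl fun i _ => ?_
  rw [pow_succ]
  field_simp

theorem BET_int (M t : ℕ) (hM : M ≤ t) : ∫ x in (0:ℝ)..1, BET_P M t x = (harmonic M : ℝ) := by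
  unfold BET_P
  rw [intervalIntegral.integral_finsetSum]
  · unfold harmonic
    push_cast
    refine Finset.sum_congr rfl fun i hi => ?_
    rw [Finset.mem_range] at hi
    rw [intervalIntegral.integral_const_mul]
    have h1 := BET_J (t - (i + 1)) i
    have h2 : i + (t - (i + 1)) + 1 = t := by omega
    rw [h2] at h1
    refine eq_inv_of_mul_eq_one_left ?_
    linarith
  · intro i _
    exact Continuous.intervalIntegrable (by fun_prop) _ _

theorem BET_le (M t : ℕ) (ht : 1 ≤ t) (hM : M ≤ t) (x : ℝ) (h0 : 0 ≤ x) (h1 : x ≤ 1) : BET_P M t x ≤ t := by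
  unfold BET_P
  have hx : 0 ≤ 1 - x := by linarith
  obtain ⟨u, rfl⟩ : ∃ u, t = u + 1 := ⟨t - 1, by omega⟩
  have h2 : ∀ i ∈ Finset.range M, ((u + 1).choose (i + 1) : ℝ) * (x ^ i * (1 - x) ^ (u + 1 - (i + 1))) ≤
      ((u + 1 : ℕ) : ℝ) * (x ^ i * (1 - x) ^ (u - i) * (u.choose i : ℝ)) := by
    intro i _
    have h3 : (((u + 1).choose (i + 1) : ℕ) : ℝ) ≤ ((u + 1 : ℕ) : ℝ) * (u.choose i : ℝ) := by
      have h4 := Nat.add_one_mul_choose_eq u i
      have h5 : (u + 1).choose (i + 1) ≤ (u + 1) * u.choose i := by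
        have h6 : (u + 1).choose (i + 1) * 1 ≤ (u + 1).choose (i + 1) * (i + 1) :=
          Nat.mul_le_mul_left _ (by omega)
        rw [mul_one] at h6
        exact h6.trans (le_of_eq h4.symm)
      exact_mod_cast h5
    have h7 : u + 1 - (i + 1) = u - i := by omega
    rw [h7]
    calc (((u + 1).choose (i + 1) : ℕ) : ℝ) * (x ^ i * (1 - x) ^ (u - i))
        ≤ (((u + 1 : ℕ) : ℝ) * (u.choose i : ℝ)) * (x ^ i * (1 - x) ^ (u - i)) :=
          mul_le_mul_of_nonneg_right h3 (by positivity)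
      _ = _ := by ring
  refine (Finset.sum_le_sum h2).trans ?_
  rw [← Finset.mul_sum]
  have h8 : ∑ i ∈ Finset.range M, x ^ i * (1 - x) ^ (u - i) * (u.choose i : ℝ) ≤ 1 := by
    have h9 : ∑ i ∈ Finset.range (u + 1), x ^ i * (1 - x) ^ (u - i) * (u.choose i : ℝ) = 1 := by
      have h10 := add_pow x (1 - x) u
      rw [add_sub_cancel, one_pow] at h10
      exact h10.symm
    refine (Finset.sum_le_sum_of_subset_of_nonneg (Finset.range_subset_range.2 hM)
      fun i _ _ => ?_).trans h9.le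
    exact mul_nonneg (mul_nonneg (pow_nonneg h0 _) (pow_nonneg hx _)) (Nat.cast_nonneg _)
  calc ((u + 1 : ℕ) : ℝ) * ∑ i ∈ Finset.range M, x ^ i * (1 - x) ^ (u - i) * (u.choose i : ℝ)
      ≤ ((u + 1 : ℕ) : ℝ) * 1 := mul_le_mul_of_nonneg_left h8 (by positivity)
    _ = ((u + 1 : ℕ) : ℝ) := mul_one _

theorem BET_proof : BET_stmt := by
  intro t κ a ht ha ha1
  have h1 : ∫ x in a..1, bin κ t x / x = ∫ x in a..1, BET_P (min κ t) t x := by
    refine intervalIntegral.integral_congr fun x hx => ?_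
    rw [Set.uIcc_of_le ha1] at hx
    exact BET_eq κ t x (lt_of_lt_of_le ha hx.1).ne'
  have hc := BET_cont (min κ t) t
  have h2 := intervalIntegral.integral_add_adjacent_intervals
    (hc.intervalIntegrable (μ := MeasureTheory.volume) 0 a) (hc.intervalIntegrable a 1)
  rw [BET_int _ _ (min_le_right _ _)] at h2
  have h3 : ∫ x in (0:ℝ)..a, BET_P (min κ t) t x ≤ t * a := by
    have h4 : ∫ x in (0:ℝ)..a, BET_P (min κ t) t x ≤ ∫ _x in (0:ℝ)..a, (t : ℝ) := by
      refine intervalIntegral.integral_mono_on ha.le (hc.intervalIntegrable 0 a)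
        intervalIntegrable_const fun x hx => ?_
      exact BET_le _ _ ht (min_le_right _ _) x hx.1 (hx.2.trans ha1)
    rw [intervalIntegral.integral_const, smul_eq_mul, sub_zero, mul_comm] at h4
    exact h4
  rw [h1]
  linarith

end Pool.Agent.ISO
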